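import Pool.Agent.Helper50.Drop.CoDefs
import Pool.Agent.Helper76.Freq.LetF2

set_option autoImplicit false

namespace Pool.Agent.Helper50.Drop

open Finset MeasureTheory
open scoped RealInnerProductSpace
open Pool.Agent.Helper76.Freq (Q ins tr gr ev cobd cup Pr Adm gp Dep Nrm R3 E6 ver pt qf IsTop IsBot
  H4 exists_isTop exists_isBot)

/-! ### basic facts -/

theorem Line.emb_5 (v : E 4) : emb v 5 = 0 := rfl

theorem Line.emb_6 (v : E 4) : emb v 6 = 0 := rfl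

theorem Line.norm_emb (v : E 4) : ‖emb v‖ = ‖v‖ := by
  have h1 : ‖emb v‖ ^ 2 = ‖v‖ ^ 2 := by
    rw [Pool.Agent.Helper76.Freq.norm7, EuclideanSpace.norm_sq_eq, Fin.sum_univ_five]
    simp only [Real.norm_eq_abs, sq_abs]
    show v 0 ^ 2 + v 1 ^ 2 + v 2 ^ 2 + v 3 ^ 2 + v 4 ^ 2 + (0 : ℝ) ^ 2 + (0 : ℝ) ^ 2 = _
    ring
  exact (sq_eq_sq₀ (norm_nonneg _) (norm_nonneg _)).1 h1

theorem Line.emb_sub (v w : E 4) : emb v - emb w = emb (v - w) := by
  ext i
  fin_cases i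
  · rfl
  · rfl
  · rfl
  · rfl
  · rfl
  · show (0 : ℝ) - 0 = 0
    ring
  · show (0 : ℝ) - 0 = 0
    ring

theorem Line.norm_emb_sub (v w : E 4) : ‖emb v - emb w‖ = ‖v - w‖ := by
  rw [Line.emb_sub, Line.norm_emb]

theorem Line.HH_emb (v : E 4) : Pool.Agent.Helper76.Freq.HH (emb v) = Hf v := by
  unfold Pool.Agent.Helper76.Freq.HH Hf
  rw [Line.emb_5, Line.emb_6]
  ring

theorem Line.topv_eq (u : R3) (y : E 4) : topv u y = (exists_isTop (emb y)).choose ∨
    topv u y = -(exists_isTop (emb y)).choose := by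
  unfold topv
  split_ifs
  · exact Or.inr rfl
  · exact Or.inl rfl

theorem Line.botv_eq (u : R3) (y : E 4) : botv u y = (exists_isBot (emb y)).choose ∨
    botv u y = -(exists_isBot (emb y)).choose := by
  unfold botv
  split_ifs
  · exact Or.inr rfl
  · exact Or.inl rfl

theorem topv_isTop (u : R3) (y : E 4) : IsTop (emb y) (topv u y) ∧ 0 ≤ ⟪topv u y, u⟫ := by
  have h := (exists_isTop (emb y)).choose_spec
  unfold topv
  split_ifs with h1
  · exact ⟨h.neg, by rw [inner_neg_left]; linarith⟩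
  · exact ⟨h, not_lt.1 h1⟩

theorem botv_isBot (w : R3) (y : E 4) : IsBot (emb y) (botv w y) ∧ 0 ≤ ⟪botv w y, w⟫ := by
  have h := (exists_isBot (emb y)).choose_spec
  unfold botv
  split_ifs with h1
  · exact ⟨h.neg, by rw [inner_neg_left]; linarith⟩
  · exact ⟨h, not_lt.1 h1⟩

theorem cA_self (y : E 4) : cA y y = 0 := by
  unfold cA
  rw [if_neg (not_lt.2 real_inner_self_nonneg)]

theorem cB_self (y : E 4) : cB y y = 0 := by
  unfold cB
  rw [if_neg (not_lt.2 real_inner_self_nonneg)]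

theorem cC_self (y : E 4) : cC y y = 0 := by
  unfold cC
  rw [if_neg (not_lt.2 real_inner_self_nonneg)]

/-- sign cocycle for close lines -/
theorem Line.sign_add {x y z : R3} (hx : ‖x‖ = 1) (hy : ‖y‖ = 1) (hz : ‖z‖ = 1)
    (hxy : 81 / 100 ≤ ⟪x, y⟫ ^ 2) (hxz : 81 / 100 ≤ ⟪x, z⟫ ^ 2) :
    (if ⟪x, y⟫ < 0 then (1 : ZMod 2) else 0) + (if ⟪y, z⟫ < 0 then (1 : ZMod 2) else 0) =
      (if ⟪x, z⟫ < 0 then (1 : ZMod 2) else 0) := by
  have h := Pool.Agent.Helper76.Freq.triple_pos hx hy hz hxy hxz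
  have d2 : (1 : ZMod 2) + 1 = 0 := by decide
  rcases lt_or_ge ⟪y, z⟫ 0 with a | a <;> rcases lt_or_ge ⟪x, z⟫ 0 with b | b <;>
    rcases lt_or_ge ⟪x, y⟫ 0 with c | c
  · exfalso
    have := mul_pos_of_neg_of_neg c b
    have := mul_neg_of_pos_of_neg this a
    linarith
  · rw [if_pos a, if_pos b, if_neg (not_lt.2 c), zero_add]
  · rw [if_pos a, if_neg (not_lt.2 b), if_pos c, d2]
  · exfalso
    have := mul_nonneg c b
    have := mul_nonpos_of_nonneg_of_nonpos this a.le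
    linarith
  · rw [if_neg (not_lt.2 a), if_pos b, if_pos c, add_zero]
  · exfalso
    have := mul_nonpos_of_nonneg_of_nonpos c b.le
    have := mul_nonpos_of_nonpos_of_nonneg this a
    linarith
  · exfalso
    have := mul_nonpos_of_nonpos_of_nonneg c.le b
    have := mul_nonpos_of_nonpos_of_nonneg this a
    linarith
  · rw [if_neg (not_lt.2 a), if_neg (not_lt.2 b), if_neg (not_lt.2 c), add_zero]

theorem Line.topv_close (u : R3) {p q : E 4} (hp : ‖p‖ = 1) (hq : ‖q‖ = 1) (hpq : ‖p - q‖ < 1 / 100)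
    (hH : -1 / 2 ≤ Hf p) : 81 / 100 ≤ ⟪topv u p, topv u q⟫ ^ 2 := by
  have h := Pool.Agent.Helper76.Freq.top_close (v := emb p) (v' := emb q) (by rw [Line.norm_emb, hp])
    (by rw [Line.norm_emb, hq]) (by rw [Line.emb_5]; norm_num) (by rw [Line.HH_emb]; exact hH)
    (topv_isTop u p).1 (topv_isTop u q).1
  rw [Line.norm_emb_sub] at h
  linarith

theorem Line.botv_close (u w : R3) {p q : E 4} (hp : ‖p‖ = 1) (hq : ‖q‖ = 1) (hpq : ‖p - q‖ < 1 / 100)
    (hH : Hf p ≤ 1 / 2) : 81 / 100 ≤ ⟪botv u p, botv w q⟫ ^ 2 := by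
  have h := Pool.Agent.Helper76.Freq.bot_close (v := emb p) (v' := emb q) (by rw [Line.norm_emb, hp])
    (by rw [Line.norm_emb, hq]) (by rw [Line.emb_6]; norm_num) (by rw [Line.HH_emb]; exact hH)
    (botv_isBot u p).1 (botv_isBot w q).1
  rw [Line.norm_emb_sub] at h
  linarith

theorem Line.gg_cases (p : E 4) : (gg p = 0 ∧ botv uC p = botv uB p) ∨
    (gg p = 1 ∧ botv uC p = -botv uB p) := by
  unfold gg
  by_cases h : botv uB p = botv uC p
  · left
    exact ⟨if_pos h, h.symm⟩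
  · right
    refine ⟨if_neg h, ?_⟩
    rcases Line.botv_eq uB p with h1 | h1 <;> rcases Line.botv_eq uC p with h2 | h2
    · exact absurd (h1.trans h2.symm) h
    · rw [h1, h2]
    · rw [h1, h2, neg_neg]
    · exact absurd (h1.trans h2.symm) h

/-- the `1`-cochains are cocycles on small simplices away from the bad sets -/
theorem line_cocycle : ∃ δ : ℝ, 0 < δ ∧ ∀ p q r : E 4, ‖p‖ = 1 → ‖q‖ = 1 → ‖r‖ = 1 →
    ‖p - q‖ < δ → ‖q - r‖ < δ → ‖p - r‖ < δ →
    (-1 / 2 ≤ Hf p → -1 / 2 ≤ Hf q → -1 / 2 ≤ Hf r → cA p q + cA q r = cA p r) ∧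
    (Hf p ≤ 1 / 2 → Hf q ≤ 1 / 2 → Hf r ≤ 1 / 2 →
      cB p q + cB q r = cB p r ∧ cC p q + cC q r = cC p r) ∧
    (Hf p ≤ 1 / 2 → Hf q ≤ 1 / 2 → cC p q = cB p q + gg p + gg q) := by
  refine ⟨1 / 100, by norm_num, fun p q r hp hq hr hpq hqr hpr => ⟨?_, ?_, ?_⟩⟩
  · intro h1 h2 h3
    exact Line.sign_add (topv_isTop uA p).1.1 (topv_isTop uA q).1.1 (topv_isTop uA r).1.1
      (Line.topv_close uA hp hq hpq h1) (Line.topv_close uA hp hr hpr h1)
  · intro h1 h2 h3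
    exact ⟨Line.sign_add (botv_isBot uB p).1.1 (botv_isBot uB q).1.1 (botv_isBot uB r).1.1
      (Line.botv_close uB uB hp hq hpq h1) (Line.botv_close uB uB hp hr hpr h1),
      Line.sign_add (botv_isBot uC p).1.1 (botv_isBot uC q).1.1 (botv_isBot uC r).1.1
      (Line.botv_close uC uC hp hq hpq h1) (Line.botv_close uC uC hp hr hpr h1)⟩
  · intro h1 h2
    have h := Line.botv_close uB uB hp hq hpq h1
    have hne : ⟪botv uB p, botv uB q⟫ ≠ 0 := by
      intro h0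
      rw [h0] at h
      norm_num at h
    have d2 : (1 : ZMod 2) + 1 = 0 := by decide
    unfold cC cB
    rcases Line.gg_cases p with ⟨g1, e1⟩ | ⟨g1, e1⟩ <;> rcases Line.gg_cases q with ⟨g2, e2⟩ | ⟨g2, e2⟩
    · rw [g1, g2, e1, e2, add_zero, add_zero]
    · rw [g1, g2, e1, e2, inner_neg_right, add_zero]
      rcases lt_or_gt_of_ne hne with h3 | h3
      · rw [if_neg (by linarith), if_pos h3, d2]
      · rw [if_pos (by linarith), if_neg (by linarith), zero_add]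
    · rw [g1, g2, e1, e2, inner_neg_left, add_zero]
      rcases lt_or_gt_of_ne hne with h3 | h3
      · rw [if_neg (by linarith), if_pos h3, d2]
      · rw [if_pos (by linarith), if_neg (by linarith), zero_add]
    · rw [g1, g2, e1, e2, inner_neg_left, inner_neg_right, neg_neg, add_assoc, d2, add_zero]

theorem Hf_unif (ε : ℝ) (hε : 0 < ε) : ∃ δ : ℝ, 0 < δ ∧ ∀ p q : E 4, ‖p‖ = 1 → ‖q‖ = 1 →
    ‖p - q‖ < δ → |Hf p - Hf q| < ε := by
  obtain ⟨C, hC, h⟩ := Pool.Agent.Helper76.Freq.HH_lip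
  refine ⟨ε / C, by positivity, fun p q hp hq hpq => ?_⟩
  have h1 := h (emb p) (emb q) (by rw [Line.norm_emb, hp]) (by rw [Line.norm_emb, hq])
  rw [Line.HH_emb, Line.HH_emb, Line.norm_emb_sub] at h1
  have h2 : C * ‖p - q‖ < ε := by
    rw [lt_div_iff₀ hC] at hpq
    linarith
  linarith

/-! ### dependence and normalisation -/

theorem Line.c1_dep {Y : Type} {R : Type*} [CommRing R] (a : Y → Y → R) : Dep 1 (c1 a) := by
  intro y y' h
  unfold c1
  rw [h 0 (by omega), h 1 (by omega)]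

theorem Line.c1_nrm {Y : Type} {R : Type*} [CommRing R] {a : Y → Y → R} (ha : ∀ y, a y y = 0) :
    Nrm 1 (c1 a) := by
  rintro y ⟨j, hj, h⟩
  have : j = 0 := by omega
  subst this
  unfold c1
  rw [← h, ha]

theorem th_dep : Dep 3 th := (Line.c1_dep _).cup ((Line.c1_dep _).cup (Line.c1_dep _))

theorem th_nrm : Nrm 3 th := (Line.c1_nrm cC_self).cup ((Line.c1_nrm cB_self).cup (Line.c1_nrm cA_self))

theorem Line.chi_dep : Dep 0 (fun y : ℕ → E 4 => chi (y 0)) := by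
  intro y y' h
  show chi (y 0) = chi (y' 0)
  rw [h 0 le_rfl]

theorem Line.cobd_chi (y : ℕ → E 4) : cobd 0 (fun y : ℕ → E 4 => chi (y 0)) y =
    chi (y 1) - chi (y 0) := by
  simp only [cobd, sum_range_succ, sum_range_zero]
  show 0 + (-1 : ZMod 2) ^ 0 * chi (y 1) + (-1) ^ 1 * chi (y 0) = _
  ring

theorem om2_dep : Dep 4 om2 := (Line.chi_dep.cobd).cup th_dep

theorem om2_nrm : Nrm 4 om2 := by
  refine Nrm.cup (p := 1) (q := 3) ?_ th_nrm
  rintro y ⟨j, hj, h⟩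
  have : j = 0 := by omega
  subst this
  rw [Line.cobd_chi, ← h, sub_self]

theorem omZ_dep : Dep 4 omZ := by
  intro y y' h
  have h0 := h 0 (by omega)
  have h1 := h 1 (by omega)
  have h2 := h 2 (by omega)
  have h3 := h 3 (by omega)
  have h4 := h 4 (by omega)
  have hiff : (∀ i < 5, ‖y i - qpi‖ < 1 / 140) ↔ (∀ i < 5, ‖y' i - qpi‖ < 1 / 140) := by
    constructor
    · intro H i hi
      rw [← h i (by omega)]
      exact H i hi
    · intro H i hi
      rw [h i (by omega)]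
      exact H i hi
  unfold omZ
  by_cases H : ∀ i < 5, ‖y i - qpi‖ < 1 / 140
  · rw [if_pos H, if_pos (hiff.1 H)]
    unfold prod4
    rw [h0, h1, h2, h3, h4]
  · rw [if_neg H, if_neg (fun H' => H (hiff.2 H'))]

theorem omZ_nrm : Nrm 4 omZ := by
  rintro y ⟨j, hj, h⟩
  unfold omZ
  split_ifs with H
  · unfold prod4
    have : j = 0 ∨ j = 1 ∨ j = 2 ∨ j = 3 := by omega
    rcases this with rfl | rfl | rfl | rfl
    · rw [show y (0 + 1) = y 1 from rfl] at h
      rw [h, sub_self, zero_mul]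
    · rw [show y (1 + 1) = y 2 from rfl] at h
      rw [h, sub_self, zero_mul, mul_zero]
    · rw [show y (2 + 1) = y 3 from rfl] at h
      rw [h, sub_self, zero_mul, mul_zero, mul_zero]
    · rw [show y (3 + 1) = y 4 from rfl] at h
      rw [h, sub_self, mul_zero, mul_zero, mul_zero]
  · rfl

/-! ### cocycles -/

theorem Line.cobd_c1 {Y : Type} {R : Type*} [CommRing R] (a : Y → Y → R) (y : ℕ → Y) :
    cobd 1 (c1 a) y = a (y 1) (y 2) - a (y 0) (y 2) + a (y 0) (y 1) := by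
  rw [Pool.Agent.Helper76.Freq.cobd_one]
  rfl

/-- the cochain `th` is a cocycle on small simplices near the level `0` -/
theorem th_cocycle : ∃ δ : ℝ, 0 < δ ∧ ∀ y : ℕ → E 4, (∀ i < 5, ‖y i‖ = 1) →
    (∀ i < 5, ∀ j < 5, ‖y i - y j‖ < δ) → (∀ i < 5, |Hf (y i)| ≤ 1 / 2) → cobd 3 th y = 0 := by
  obtain ⟨δ, hδ, h⟩ := line_cocycle
  refine ⟨δ, hδ, fun y hy hyd hH => ?_⟩
  have hup : ∀ i < 5, Hf (y i) ≤ 1 / 2 := fun i hi => (abs_le.1 (hH i hi)).2
  have hlo : ∀ i < 5, -1 / 2 ≤ Hf (y i) := fun i hi => by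
    have := (abs_le.1 (hH i hi)).1
    linarith
  have hC : cobd 1 (c1 cC) y = 0 := by
    rw [Line.cobd_c1]
    have := ((h (y 0) (y 1) (y 2) (hy 0 (by omega)) (hy 1 (by omega)) (hy 2 (by omega))
      (hyd 0 (by omega) 1 (by omega)) (hyd 1 (by omega) 2 (by omega))
      (hyd 0 (by omega) 2 (by omega))).2.1 (hup 0 (by omega)) (hup 1 (by omega))
      (hup 2 (by omega))).2
    rw [← this]
    ring
  have hB : cobd 1 (c1 cB) (fun j => y (j + 1)) = 0 := by
    rw [Line.cobd_c1]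
    have := ((h (y 1) (y 2) (y 3) (hy 1 (by omega)) (hy 2 (by omega)) (hy 3 (by omega))
      (hyd 1 (by omega) 2 (by omega)) (hyd 2 (by omega) 3 (by omega))
      (hyd 1 (by omega) 3 (by omega))).2.1 (hup 1 (by omega)) (hup 2 (by omega))
      (hup 3 (by omega))).1
    show cB (y 2) (y 3) - cB (y 1) (y 3) + cB (y 1) (y 2) = 0
    rw [← this]
    ring
  have hA : cobd 1 (c1 cA) (fun j => y (j + 1 + 1)) = 0 := by
    rw [Line.cobd_c1]
    have := (h (y 2) (y 3) (y 4) (hy 2 (by omega)) (hy 3 (by omega)) (hy 4 (by omega))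
      (hyd 2 (by omega) 3 (by omega)) (hyd 3 (by omega) 4 (by omega))
      (hyd 2 (by omega) 4 (by omega))).1 (hlo 2 (by omega)) (hlo 3 (by omega))
      (hlo 4 (by omega))
    show cA (y 3) (y 4) - cA (y 2) (y 4) + cA (y 2) (y 3) = 0
    rw [← this]
    ring
  have e1 := Pool.Agent.Helper76.Freq.cobd_cup (p := 1) (q := 2) (Φ := c1 cC)
    (Ψ := cup 1 (c1 cB) (c1 cA)) (Line.c1_dep _) y
  have e2 := Pool.Agent.Helper76.Freq.cobd_cup (p := 1) (q := 1) (Φ := c1 cB)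
    (Ψ := c1 cA) (Line.c1_dep _) (fun j => y (j + 1))
  have e3 : cobd 2 (cup 1 (c1 cB) (c1 cA)) (fun j => y (j + 1)) = 0 := by
    refine e2.trans ?_
    simp only [cup]
    rw [hB, hA]
    ring
  show cobd (1 + 2) (cup 1 (c1 cC) (cup 1 (c1 cB) (c1 cA))) y = 0
  rw [e1]
  simp only [cup] at e3 ⊢
  rw [hC, e3]
  ring

/-- the cochain `om2` is a cocycle on small simplices -/
theorem om2_cocycle : ∃ δ : ℝ, 0 < δ ∧ ∀ y : ℕ → E 4, (∀ i < 6, ‖y i‖ = 1) →
    (∀ i < 6, ∀ j < 6, ‖y i - y j‖ < δ) → cobd 4 om2 y = 0 := by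
  obtain ⟨δ₁, hδ₁, h₁⟩ := th_cocycle
  obtain ⟨δ₂, hδ₂, h₂⟩ := Hf_unif (1 / 4) (by norm_num)
  refine ⟨min δ₁ δ₂, lt_min hδ₁ hδ₂, fun y hy hyd => ?_⟩
  have hyd1 : ∀ i < 6, ∀ j < 6, ‖y i - y j‖ < δ₁ := fun i hi j hj =>
    (hyd i hi j hj).trans_le (min_le_left _ _)
  have hyd2 : ∀ i < 6, ∀ j < 6, ‖y i - y j‖ < δ₂ := fun i hi j hj =>
    (hyd i hi j hj).trans_le (min_le_right _ _)
  have e1 := Pool.Agent.Helper76.Freq.cobd_cup (p := 1) (q := 3)
    (Φ := cobd 0 (fun y : ℕ → E 4 => chi (y 0))) (Ψ := th) Line.chi_dep.cobd y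
  have e2 : cobd 1 (cobd 0 (fun y : ℕ → E 4 => chi (y 0))) y = 0 := by
    rw [Pool.Agent.Helper76.Freq.cobd_one, Line.cobd_chi, Line.cobd_chi, Line.cobd_chi]
    show (chi (y 2) - chi (y 1)) - (chi (y 2) - chi (y 0)) + (chi (y 1) - chi (y 0)) = 0
    ring
  show cobd (1 + 3) (cup 1 (cobd 0 (fun y : ℕ → E 4 => chi (y 0))) th) y = 0
  rw [e1]
  simp only [cup]
  rw [e2, zero_mul, zero_add, Line.cobd_chi]
  by_cases hc : chi (y 1) = chi (y 0)
  · rw [hc, sub_self, zero_mul, mul_zero]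
  · have hcl : ∀ i < 6, ∀ j < 6, |Hf (y i) - Hf (y j)| < 1 / 4 := fun i hi j hj =>
      h₂ _ _ (hy i hi) (hy j hj) (hyd2 i hi j hj)
    have h0 : |Hf (y 0)| < 1 / 4 := by
      have h3 := abs_lt.1 (hcl 0 (by omega) 1 (by omega))
      unfold chi at hc
      rcases lt_or_ge 0 (Hf (y 1)) with a | a <;> rcases lt_or_ge 0 (Hf (y 0)) with b | b
      · exact absurd (by rw [if_pos a, if_pos b]) hc
      · rw [abs_of_nonpos b]; linarith [h3.1]
      · rw [abs_of_pos b]; linarith [h3.2]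
      · exact absurd (by rw [if_neg (not_lt.2 a), if_neg (not_lt.2 b)]) hc
    have hall : ∀ i < 6, |Hf (y i)| ≤ 1 / 2 := by
      intro i hi
      have h3 := hcl i hi 0 (by omega)
      have h4 : Hf (y i) = (Hf (y i) - Hf (y 0)) + Hf (y 0) := by ring
      rw [h4]
      exact (abs_add_le _ _).trans (by linarith)
    rw [h₁ (fun j => y (j + 1)) (fun i hi => hy (i + 1) (by omega))
      (fun i hi j hj => hyd1 (i + 1) (by omega) (j + 1) (by omega))
      (fun i hi => hall (i + 1) (by omega)), mul_zero, mul_zero]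

end Pool.Agent.Helper50.Drop
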